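import Pool.Agent.Helper75.CR.St

set_option autoImplicit false

/-! Project CR (helper75), MP_265e56_al: module M3 (helper78): pushing words to a larger content. -/

namespace Pool.Agent.Helper78.CR

open Pool.Agent.Helper75.CR Helper1.IM

theorem sb_const_rel (ρ : FIC) (y y' : Wd) (h : ρ.r y y') (b : Wd) :
    ρ.r (sb (fun _ => y) b) (sb (fun _ => y') b) := by
  induction b with
  | nil => exact ρ.refl' _
  | cons a b ih =>
    rw [sb_cons, sb_cons]
    refine ρ.mul2 ?_ ih
    by_cases ha : a.2 = true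
    · rw [if_pos ha, if_pos ha]
      exact ρ.star' h
    · rw [if_neg ha, if_neg ha]
      exact h

theorem hM3 : Helper75.CR.StM3 := by
  intro θ hθ
  obtain ⟨⟨b, hb⟩, b', hb'⟩ := hθ
  -- x b x = x
  have h1 : θ.r ([X 0] ++ b) (b' ++ [X 0]) := by
    have a1 := θ.mulR b hb'
    have a2 : θ.r (b' ++ ([X 0, X 0] ++ b)) (b' ++ [X 0]) := θ.mulL b' (θ.symm' hb)
    rw [← List.append_assoc] at a2
    exact θ.trans' a1 a2
  have h2 : θ.r [X 0] ([X 0] ++ b ++ [X 0]) := by
    have a1 := θ.mulR [X 0] h1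
    have e : b' ++ [X 0] ++ [X 0] = b' ++ [X 0, X 0] := by simp
    rw [e] at a1
    exact θ.trans' hb' (θ.symm' a1)
  have h3 : ∀ y : Wd, y ≠ [] → θ.r y (y ++ sb (fun _ => y) b ++ y) := by
    intro y hy
    have := θ.sub' (fun _ => y) (fun _ => hy) h2
    rw [sb_append, sb_append] at this
    simpa using this
  refine ⟨fun z w => w ++ sb (fun _ => z ++ w) b ++ (z ++ w), ?_, ?_, ?_, ?_⟩
  · intro ρ _ z w w' h
    have hy := ρ.mulL z h
    exact ρ.mul2 (ρ.mul2 h (sb_const_rel ρ _ _ hy b)) hy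
  · intro z w _
    have hsub : ct (sb (fun _ => z ++ w) b) ⊆ ct z ∪ ct w := by
      rw [ct_sb]
      intro i hi
      rw [Finset.mem_biUnion] at hi
      obtain ⟨_, _, hi⟩ := hi
      rwa [ct_append] at hi
    simp only [ct_append]
    ext i
    have := @hsub i
    simp only [Finset.mem_union] at this ⊢
    tauto
  · intro ρ hρ z w hw ⟨s, hs⟩
    have hy : z ++ w ≠ [] := by simp [hw]
    have a1 := hρ _ _ (h3 (z ++ w) hy)
    have a2 : ρ.r w (s ++ (z ++ w)) := by
      rw [← List.append_assoc]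
      exact hs
    -- w c y = s y c y = s y = w
    have a3 : ρ.r (w ++ sb (fun _ => z ++ w) b ++ (z ++ w)) (s ++ (z ++ w) ++ sb (fun _ => z ++ w) b ++ (z ++ w)) :=
      ρ.mulR _ (ρ.mulR _ a2)
    have a4 : ρ.r (s ++ (z ++ w) ++ sb (fun _ => z ++ w) b ++ (z ++ w)) (s ++ (z ++ w)) := by
      have := ρ.mulL s (ρ.symm' a1)
      simpa only [List.append_assoc] using this
    exact ρ.trans' a3 (ρ.trans' a4 (ρ.symm' a2))
  · intro f z w
    simp only [sb_append, sb_sb]

end Pool.Agent.Helper78.CR
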