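import Pool.Agent.Helper75.CR.St

set_option autoImplicit false

/-! Project CR (helper75), MP_265e56_al: module M5 (helper78): final argument of the case without SL3. -/

namespace Pool.Agent.Helper78.CR

open Pool.Agent.Helper75.CR Helper1.IM

/-- Steps of the join keep words nonempty. -/
theorem jn_ne {α β : FIC} {u v : Wd} (h : Jn α β u v) (hu : u ≠ []) : v ≠ [] := by
  induction h with
  | refl => exact hu
  | tail _ hs ih =>
    rcases hs with hs | hs
    · exact α.ne'' hs ih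
    · exact β.ne'' hs ih

/-- Words with a given content. -/
theorem exists_ct (E : Finset ℕ) : ∃ z : Wd, ct z = E := by
  refine ⟨E.toList.map X, ?_⟩
  ext i
  rw [mem_ct]
  constructor
  · rintro ⟨b, hb⟩
    rw [List.mem_map] at hb
    obtain ⟨a, ha, hab⟩ := hb
    have : a = i := congrArg Prod.fst hab
    rw [← this]
    exact Finset.mem_toList.mp ha
  · intro hi
    exact ⟨false, List.mem_map.mpr ⟨i, Finset.mem_toList.mpr hi, rfl⟩⟩

/-- The claim along the chain. -/
theorem chain (θ α β : FIC) (hα : Le θ α) (hβ : Le θ β) (hPM : ∀ m, PM SB (cP (toP θ)) m) (psh : Wd → Wd → Wd)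
    (h1 : ∀ ρ : FIC, Le θ ρ → ∀ z w w' : Wd, ρ.r w w' → ρ.r (psh z w) (psh z w'))
    (h2 : ∀ z w : Wd, w ≠ [] → ct (psh z w) = ct z ∪ ct w) (u v : Wd) (hu : u ≠ []) (h : Jn α β u v) :
    ∃ E : Finset ℕ, ∀ z : Wd, E ⊆ ct z → ∃ w, α.r (psh z u) w ∧ β.r w (psh z v) ∧ ct w = ct z := by
  induction h with
  | refl =>
    refine ⟨ct u, fun z hz => ⟨psh z u, α.refl' _, β.refl' _, ?_⟩⟩
    rw [h2 z u hu, Finset.union_eq_left.mpr hz]
  | @tail v v' hch hs ih =>
    obtain ⟨E, hE⟩ := ih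
    have hv : v ≠ [] := jn_ne hch hu
    refine ⟨E ∪ (ct v ∪ ct v'), fun z hz => ?_⟩
    have hzE : E ⊆ ct z := Finset.union_subset_left hz
    have hzv : ct v ⊆ ct z := Finset.union_subset_left (Finset.union_subset_right hz)
    have hzv' : ct v' ⊆ ct z := Finset.union_subset_right (Finset.union_subset_right hz)
    obtain ⟨w, hw1, hw2, hw3⟩ := hE z hzE
    rcases hs with hs | hs
    · have hv' : v' ≠ [] := α.ne'' hs hv
      have hle1 : LeP (cP (toP θ)) (cP (toP β)) := fun a b hab => ⟨hβ _ _ hab.1, hab.2⟩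
      have hle2 : LeP (cP (toP θ)) (cP (toP α)) := fun a b hab => ⟨hα _ _ hab.1, hab.2⟩
      have e1 : ct (psh z v) = ct z := by rw [h2 z v hv, Finset.union_eq_left.mpr hzv]
      have e2 : ct (psh z v') = ct z := by rw [h2 z v' hv', Finset.union_eq_left.mpr hzv']
      obtain ⟨w', a1, a2⟩ := hPM _ (cP (toP β)) (cP (toP α)) hle1 hle2 (cP_cp _) (cP_cp _) w (psh z v) (psh z v') rfl
        ⟨hw2, hw3.trans e1.symm⟩ ⟨h1 α hα z v v' hs, e1.trans e2.symm⟩
      refine ⟨w', α.trans' hw1 a1.1, a2.1, ?_⟩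
      have : ct w' = ct w := a1.2.symm
      rw [this, hw3]
    · exact ⟨w, hw1, β.trans' hw2 (h1 β hβ z v v' hs), hw3⟩

theorem hM5 (hK : Helper75.CR.StK) (hL3 : Helper75.CR.StL3) (hL4 : Helper75.CR.StL4) (hM1 : Helper75.CR.StM1)
    (hM2 : Helper75.CR.StM2) (hM3 : Helper75.CR.StM3) (hM4 : Helper75.CR.StM4) : Helper75.CR.StM5 := by
  intro θ hC hS α β γ hα hβ hγ hαγ u v huv hguv
  obtain ⟨hCRW, hPRJ⟩ := hM1 θ hC
  have hSG := hM2 θ hS
  have hBs := hL4 Bool SB (toP θ) hCRW hSG hPRJ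
  have hPM := hK Bool SB (cP (toP θ)) hBs
  by_cases hu : u = []
  · have hv : v = [] := γ.ne' hguv hu
    rw [hu, hv]
    exact Relation.ReflTransGen.refl
  have hv : v ≠ [] := jn_ne huv hu
  obtain ⟨psh, p1, p2, p3, p4⟩ := hM3 θ hC
  obtain ⟨E, hE⟩ := chain θ α β hα hβ hPM psh p1 p2 u v hu huv
  obtain ⟨z, hz⟩ := exists_ct (E ∪ (ct u ∪ ct v))
  have hzE : E ⊆ ct z := by
    rw [hz]
    exact Finset.subset_union_left
  have hz0 : z ≠ [] := by
    rintro rfl
    rw [ct_nil] at hz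
    have h3 : ct u ⊆ ∅ := by
      rw [hz]
      exact Finset.subset_union_left.trans Finset.subset_union_right
    exact hu (cn_eq_empty.1 (Finset.subset_empty.mp h3))
  obtain ⟨w, w1, w2, _⟩ := hE z hzE
  have w3 : γ.r w (psh z v) := γ.trans' (γ.symm' (hαγ _ _ w1)) (p1 γ hγ z u v hguv)
  have sA : ∀ a b, α.r a b → Jm α β γ a b := fun a b h => Relation.ReflTransGen.single (Or.inl h)
  have sB' : ∀ a b, β.r a b → γ.r a b → Jm α β γ a b := fun a b h h' => Relation.ReflTransGen.single (Or.inr ⟨h, h'⟩)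
  have tr : ∀ a b c, Jm α β γ a b → Jm α β γ b c → Jm α β γ a c := fun a b c h h' => Relation.ReflTransGen.trans h h'
  by_cases hct : ct u = ct v
  · -- same contents
    set f : ℕ → Wd := fun i => if i ∈ ct u then [(i, false)] else u with hf
    have hfn : ∀ i, f i ≠ [] := by
      intro i
      simp only [hf]
      split_ifs
      · simp
      · exact hu
    have hfu : ∀ x : Wd, ct x = ct u → sb f x = x := by
      intro x hx
      rw [sb_congr f (fun i => [(i, false)]) x (fun i hi => by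
        simp only [hf]
        rw [if_pos (hx ▸ hi)]), sb_id]
    have hcf : ∀ x : Wd, ct (sb f x) ⊆ ct u := by
      intro x i hi
      rw [ct_sb, Finset.mem_biUnion] at hi
      obtain ⟨j, _, hj⟩ := hi
      simp only [hf] at hj
      split_ifs at hj with hju
      · simp at hj
        rwa [hj]
      · exact hj
    have hfix : ∀ x : Wd, x ≠ [] → ct x = ct u → θ.r (psh (sb f z) x) x := by
      intro x hx hxu
      refine p3 θ (fun _ _ h => h) (sb f z) x hx ?_
      obtain ⟨_, ⟨s, hs, _⟩, _⟩ := hL3 Bool SB (toP θ) hCRW hSG x (sb f z) hx (by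
        change ct (sb f z) ⊆ ct x
        rw [hxu]
        exact hcf z)
      exact ⟨s, hs⟩
    have a1 := α.sub' f hfn w1
    rw [p4 f z u, hfu u rfl] at a1
    have a2 := β.sub' f hfn w2
    rw [p4 f z v, hfu v hct.symm] at a2
    have a3 := γ.sub' f hfn w3
    rw [p4 f z v, hfu v hct.symm] at a3
    have b1 : α.r u (sb f w) := α.trans' (α.symm' (hα _ _ (hfix u hu rfl))) a1
    have b2 : β.r (sb f w) v := β.trans' a2 (hβ _ _ (hfix v hv hct.symm))
    have b3 : γ.r (sb f w) v := γ.trans' a3 (hγ _ _ (hfix v hv hct.symm))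
    exact tr _ _ _ (sA _ _ b1) (sB' _ _ b2 b3)
  · -- different contents
    have hgp : ∀ x : Wd, x ≠ [] → γ.r (psh z x) x := by
      intro x hx
      refine p3 γ hγ z x hx ?_
      exact hM4 γ (hC.mono hγ) (hS.mono hγ) u v hu hguv hct x z hx hz0
    have hex : (∃ s t : Wd, s ≠ [] ∧ α.r s t ∧ ct s ≠ ct t) ∨ ∃ s t : Wd, s ≠ [] ∧ β.r s t ∧ ct s ≠ ct t := by
      by_contra hcon
      push Not at hcon
      obtain ⟨c1, c2⟩ := hcon
      apply hct
      have key : ∀ v' : Wd, Jn α β u v' → ct u = ct v' := by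
        intro v' h
        induction h with
        | refl => rfl
        | @tail a b hch hs ih =>
          have ha : a ≠ [] := jn_ne hch hu
          rcases hs with hs | hs
          · exact ih.trans (c1 a b ha hs)
          · exact ih.trans (c2 a b ha hs)
      exact key v huv
    rcases hex with ⟨s, t, hs0, hst, hstc⟩ | ⟨s, t, hs0, hst, hstc⟩
    · have hap : ∀ x : Wd, x ≠ [] → α.r (psh z x) x := by
        intro x hx
        refine p3 α hα z x hx ?_
        exact hM4 α (hC.mono hα) (hS.mono hα) s t hs0 hst hstc x z hx hz0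
      have b1 : α.r u w := α.trans' (α.symm' (hap u hu)) w1
      exact tr _ _ _ (tr _ _ _ (sA _ _ b1) (sB' _ _ w2 w3)) (sA _ _ (hap v hv))
    · have hbp : ∀ x : Wd, x ≠ [] → β.r (psh z x) x := by
        intro x hx
        refine p3 β hβ z x hx ?_
        exact hM4 β (hC.mono hβ) (hS.mono hβ) s t hs0 hst hstc x z hx hz0
      have b0 : β.r u (psh z u) ∧ γ.r u (psh z u) := ⟨β.symm' (hbp u hu), γ.symm' (hgp u hu)⟩
      have b2 : β.r w v := β.trans' w2 (hbp v hv)
      have b3 : γ.r w v := γ.trans' w3 (hgp v hv)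
      exact tr _ _ _ (tr _ _ _ (sB' _ _ b0.1 b0.2) (sA _ _ w1)) (sB' _ _ b2 b3)

end Pool.Agent.Helper78.CR
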